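import Pool.Agent.Helper69_FD.HR

/-!
# Halving of a necklace with signed weights
-/

set_option autoImplicit false

namespace Pool.Agent.FD

open Finset

/-- Halving: signs with at most `|κ|` changes, every signed sum at most one. -/
theorem halve {κ : Type*} [Fintype κ] (m : ℕ) (w : ℕ → κ → ℝ) (hw1 : ∀ i j, |w i j| ≤ 1)
    (hw2 : ∀ i j j', w i j ≠ 0 → w i j' ≠ 0 → j = j') :
    ∃ s : ℕ → ℝ, (∀ i, s i = 1 ∨ s i = -1) ∧
      ((range (m - 1)).filter (fun i => s i ≠ s (i + 1))).card ≤ Fintype.card κ ∧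
      (∀ j, |∑ i ∈ range m, s i * w i j| ≤ 1) ∧
      ∑ j, |∑ i ∈ range m, s i * w i j| ≤ Fintype.card κ := by
  classical
  rcases isEmpty_or_nonempty κ with hκ | hκ
  · refine ⟨fun _ => 1, fun _ => Or.inl rfl, ?_, fun j => hκ.elim j, ?_⟩
    · simp
    · simp
  obtain ⟨n, hn⟩ : ∃ n, Fintype.card κ = n + 1 :=
    ⟨Fintype.card κ - 1, (Nat.succ_pred_eq_of_pos Fintype.card_pos).symm⟩
  have e : κ ≃ Fin (n + 1) := Fintype.equivFinOfCardEq hn
  set c : ℕ → κ := fun i => if h : ∃ j, w i j ≠ 0 then h.choose else hκ.some with hc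
  have hcw : ∀ i j, j ≠ c i → w i j = 0 := by
    intro i j hj
    by_contra hne
    apply hj
    have h : ∃ j, w i j ≠ 0 := ⟨j, hne⟩
    simp only [hc, dif_pos h]
    exact hw2 i _ _ hne h.choose_spec
  obtain ⟨κ', ε, hmono, hε, hsum⟩ := discrete_hobby_rice (L := m) (n := n)
    (fun i => e (c i.val)) (fun i => w i.val (c i.val)) (fun i => hw1 _ _)
  set s : ℕ → ℝ := fun i => if h : i < m then ε (κ' ⟨i, h⟩) else 1 with hs
  have hsi : ∀ (i : ℕ) (h : i < m), s i = ε (κ' ⟨i, h⟩) := fun i h => by simp only [hs, dif_pos h]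
  have h1 : ∀ j, |∑ i ∈ range m, s i * w i j| ≤ 1 := by
    intro j
    have h2 := hsum (e j)
    have h3 : ∑ i ∈ range m, s i * w i j =
        ∑ i : Fin m with e (c i.val) = e j, ε (κ' i) * w i.val (c i.val) := by
      rw [Finset.sum_filter, ← Fin.sum_univ_eq_sum_range (fun i => s i * w i j) m]
      refine Finset.sum_congr rfl fun i _ => ?_
      by_cases h : c i.val = j
      · rw [if_pos (congrArg e h), hsi i.val i.isLt, h]
      · rw [if_neg (fun h' => h (e.injective h')), hcw i.val j (fun h' => h h'.symm), mul_zero]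
    rw [h3]
    exact h2
  refine ⟨s, ?_, ?_, h1, ?_⟩
  · intro i
    by_cases h : i < m
    · rw [hsi i h]
      exact hε _
    · left
      simp only [hs, dif_neg h]
  · rw [hn]
    have hmem : ∀ i ∈ (range (m - 1)).filter (fun i => s i ≠ s (i + 1)),
        ∃ (h : i < m) (h' : i + 1 < m), κ' ⟨i, h⟩ < κ' ⟨i + 1, h'⟩ := by
      intro i hi
      rw [mem_filter, mem_range] at hi
      have h : i < m := by omega
      have h' : i + 1 < m := by omega
      refine ⟨h, h', lt_of_le_of_ne (hmono (Nat.le_succ i)) ?_⟩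
      intro heq
      apply hi.2
      rw [hsi i h, hsi (i + 1) h', heq]
    have h2 : ((range (m - 1)).filter (fun i => s i ≠ s (i + 1))).card ≤ (range (n + 1)).card := by
      refine Finset.card_le_card_of_injOn
        (fun i => if h : i < m then (κ' ⟨i, h⟩).val else 0) ?_ ?_
      · intro i hi
        obtain ⟨h, h', hlt⟩ := hmem i hi
        simp only [dif_pos h]
        rw [Finset.coe_range, Set.mem_Iio]
        have h3 : (κ' ⟨i, h⟩).val < (κ' ⟨i + 1, h'⟩).val := hlt
        have h4 := (κ' ⟨i + 1, h'⟩).isLt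
        omega
      · intro i hi i' hi' heq
        obtain ⟨h, h', hlt⟩ := hmem i hi
        obtain ⟨g, g', glt⟩ := hmem i' hi'
        simp only [dif_pos h, dif_pos g] at heq
        have heq' : κ' ⟨i, h⟩ = κ' ⟨i', g⟩ := Fin.ext heq
        rcases lt_trichotomy i i' with hii | hii | hii
        · exfalso
          have h3 : κ' ⟨i + 1, h'⟩ ≤ κ' ⟨i', g⟩ := hmono (Nat.succ_le_of_lt hii)
          exact lt_irrefl _ (hlt.trans_le (h3.trans heq'.symm.le))
        · exact hii
        · exfalso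
          have h3 : κ' ⟨i' + 1, g'⟩ ≤ κ' ⟨i, h⟩ := hmono (Nat.succ_le_of_lt hii)
          exact lt_irrefl _ (glt.trans_le (h3.trans heq'.le))
    rwa [card_range] at h2
  · calc ∑ j, |∑ i ∈ range m, s i * w i j| ≤ ∑ _j : κ, (1 : ℝ) :=
        Finset.sum_le_sum fun j _ => h1 j
      _ = Fintype.card κ := by simp

end Pool.Agent.FD
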