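import Pool.Agent.Common_Brouwer.Brouwer

/-!
# The Hobby–Rice theorem for step functions, and a discrete form

For a real function on `0, .., L - 1` bounded by one and a colouring of `0, .., L - 1` with
`n + 1` colours, there are signs with at most `n + 1` sign changes such that the signed sum over
every colour is at most one in absolute value.
-/

set_option autoImplicit false

open Pool.Agent.Common_Brouwer

namespace Pool.Agent.FD

/-- partial sums of the absolute values -/
noncomputable def aa {m : ℕ} (z : Fin m → ℝ) (k : ℕ) : ℝ :=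
  ∑ l : Fin m, if l.val < k then |z l| else 0

theorem aa_zero {m : ℕ} (z : Fin m → ℝ) : aa z 0 = 0 := by
  simp [aa]

theorem aa_top {m : ℕ} (z : Fin m → ℝ) : aa z m = l1 z := by
  unfold aa l1
  exact Finset.sum_congr rfl fun l _ => if_pos l.isLt

theorem aa_succ {m : ℕ} (z : Fin m → ℝ) (k : Fin m) : aa z (k.val + 1) = aa z k.val + |z k| := by
  unfold aa
  have h : ∀ l : Fin m, (if l.val < k.val + 1 then |z l| else 0) =
      (if l.val < k.val then |z l| else 0) + (if l = k then |z l| else 0) := by
    intro l
    by_cases h1 : l = k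
    · subst h1
      simp
    · have h2 : l.val ≠ k.val := fun h => h1 (Fin.ext h)
      rw [if_neg h1, add_zero]
      by_cases h3 : l.val < k.val
      · rw [if_pos h3, if_pos (by omega)]
      · rw [if_neg h3, if_neg (by omega)]
  rw [Finset.sum_congr rfl fun l _ => h l, Finset.sum_add_distrib, Finset.sum_ite_eq']
  simp

theorem aa_mono {m : ℕ} (z : Fin m → ℝ) {k l : ℕ} (h : k ≤ l) : aa z k ≤ aa z l := by
  unfold aa
  refine Finset.sum_le_sum fun i _ => ?_
  by_cases h1 : i.val < k
  · rw [if_pos h1, if_pos (by omega)]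
  · rw [if_neg h1]
    split_ifs
    · exact abs_nonneg _
    · exact le_refl _

theorem aa_neg {m : ℕ} (z : Fin m → ℝ) (k : ℕ) : aa (-z) k = aa z k := by
  unfold aa
  refine Finset.sum_congr rfl fun i _ => ?_
  rw [Pi.neg_apply, abs_neg]

theorem continuous_aa {m : ℕ} (k : ℕ) : Continuous fun z : Fin m → ℝ => aa z k := by
  unfold aa
  refine continuous_finsetSum _ fun i _ => ?_
  split_ifs
  · exact (continuous_apply i).abs
  · exact continuous_const

/-- the odd map of the sphere -/
noncomputable def gg {m : ℕ} (F : ℝ → ℝ) (z : Fin m → ℝ) : ℝ :=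
  ∑ k : Fin m, (F (aa z k.val + max (z k) 0) - F (aa z k.val + max (-z k) 0))

theorem gg_neg {m : ℕ} (F : ℝ → ℝ) (z : Fin m → ℝ) : gg F (-z) = - gg F z := by
  unfold gg
  rw [← Finset.sum_neg_distrib]
  refine Finset.sum_congr rfl fun k _ => ?_
  rw [aa_neg, Pi.neg_apply, neg_neg, neg_sub]

theorem continuous_gg {m : ℕ} {F : ℝ → ℝ} (hF : Continuous F) :
    Continuous fun z : Fin m → ℝ => gg F z := by
  unfold gg
  refine continuous_finsetSum _ fun k _ => ?_
  exact (hF.comp ((continuous_aa _).add ((continuous_apply k).max continuous_const))).sub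
    (hF.comp ((continuous_aa _).add ((continuous_apply k).neg.max continuous_const)))

/-- Hobby–Rice -/
theorem hobby_rice (n : ℕ) (F : Fin (n + 1) → ℝ → ℝ) (hF : ∀ i, Continuous (F i)) :
    ∃ z : Fin (n + 2) → ℝ, l1 z = 1 ∧ ∀ i, gg (F i) z = 0 := by
  by_contra hcon
  push Not at hcon
  set S : (Fin (n + 1) → ℝ) → (Fin (n + 2) → ℝ) :=
    fun x => Fin.snoc (α := fun _ => ℝ) x (1 - l1 x) with hS
  have hSl : ∀ x, l1 x ≤ 1 → l1 (S x) = 1 := by
    intro x hx
    have h1 : l1 (S x) = l1 x + |1 - l1 x| := by
      simp only [hS, l1]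
      rw [Fin.sum_univ_castSucc]
      simp only [Fin.snoc_castSucc, Fin.snoc_last]
    rw [h1, abs_of_nonneg (by linarith)]
    ring
  have hSc : Continuous S := by
    refine continuous_pi fun k => ?_
    refine Fin.lastCases ?_ (fun k => ?_) k
    · simp only [hS, Fin.snoc_last]
      exact continuous_const.sub continuous_l1
    · simp only [hS, Fin.snoc_castSucc]
      exact continuous_apply k
  refine no_odd n (fun x i => gg (F i) (S x)) ?_ ?_ ?_
  · exact (continuous_pi fun i => (continuous_gg (hF i)).comp hSc).continuousOn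
  · intro x hx h0
    obtain ⟨i, hi⟩ := hcon (S x) (hSl x hx)
    exact hi (congrFun h0 i)
  · intro x hx
    have hSn : S (-x) = - S x := by
      funext k
      refine Fin.lastCases ?_ (fun k => ?_) k
      · simp only [hS, Pi.neg_apply, Fin.snoc_last, l1_neg, hx]
        norm_num
      · simp only [hS, Pi.neg_apply, Fin.snoc_castSucc]
    funext i
    simp only [hSn, gg_neg, Pi.neg_apply]

/-- `max 0 (min 1 u)` -/
noncomputable def clamp (u : ℝ) : ℝ := max 0 (min 1 u)

theorem continuous_clamp : Continuous clamp := by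
  unfold clamp
  fun_prop

theorem clamp_mono {u v : ℝ} (h : u ≤ v) : clamp u ≤ clamp v := by
  unfold clamp
  exact max_le_max_left _ (min_le_min_left _ h)

theorem clamp_of_nonpos {u : ℝ} (h : u ≤ 0) : clamp u = 0 := by
  unfold clamp
  rw [max_eq_left ((min_le_right _ _).trans h)]

theorem clamp_of_one_le {u : ℝ} (h : 1 ≤ u) : clamp u = 1 := by
  unfold clamp
  rw [min_eq_left h, max_eq_right zero_le_one]

/-- the rounding lemma: one colour at a time -/
theorem rounding {L : ℕ} {ι : Type} [DecidableEq ι] (c : Fin L → ι) (f w p q : Fin L → ℝ)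
    (hf : ∀ j, |f j| ≤ 1) (hp : ∀ j, 0 ≤ p j) (hq : ∀ j, 0 ≤ q j) (hpq : ∀ j, p j + q j = 1)
    (hw : ∀ j, w j = p j - q j) (s : Finset (Fin L)) :
    ∃ v : Fin L → ℝ, (∀ j, (v j = 1 ∧ 0 < p j) ∨ (v j = -1 ∧ 0 < q j)) ∧
      ∀ i, |∑ j ∈ s with c j = i, (v j - w j) * f j| ≤ 1 := by
  classical
  induction s using Finset.induction_on with
  | empty =>
    refine ⟨fun j => if 0 < p j then 1 else -1, fun j => ?_, fun i => ?_⟩
    · by_cases h : 0 < p j
      · exact Or.inl ⟨if_pos h, h⟩
      · refine Or.inr ⟨if_neg h, ?_⟩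
        have h1 := hp j
        have h2 := hpq j
        linarith
    · rw [Finset.filter_empty, Finset.sum_empty, abs_zero]
      exact zero_le_one
  | insert j s hj ih =>
    obtain ⟨v, hv1, hv2⟩ := ih
    set e : ℝ := ∑ k ∈ s with c k = c j, (v k - w k) * f k with he
    have he1 : |e| ≤ 1 := hv2 (c j)
    rw [abs_le] at he1
    -- a good sign for `j`
    have hsign : ∃ t : ℝ, ((t = 1 ∧ 0 < p j) ∨ (t = -1 ∧ 0 < q j)) ∧ |e + (t - w j) * f j| ≤ 1 := by
      have h1 := hp j
      have h2 := hq j
      have h3 := hpq j
      have h4 := hw j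
      have h5 := hf j
      rw [abs_le] at h5
      rcases h1.eq_or_lt with hp0 | hp0
      · refine ⟨-1, Or.inr ⟨rfl, by linarith⟩, ?_⟩
        have : w j = -1 := by linarith
        rw [this, sub_self, zero_mul, add_zero, abs_le]
        exact he1
      rcases h2.eq_or_lt with hq0 | hq0
      · refine ⟨1, Or.inl ⟨rfl, by linarith⟩, ?_⟩
        have : w j = 1 := by linarith
        rw [this, sub_self, zero_mul, add_zero, abs_le]
        exact he1
      have hw1 : 1 - w j = 2 * q j := by linarith
      have hw2 : -1 - w j = -(2 * p j) := by linarith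
      have hq1 : q j ≤ 1 := by linarith
      have hp1 : p j ≤ 1 := by linarith
      rcases le_total 0 (f j) with hfj | hfj
      · by_cases hle : e + (1 - w j) * f j ≤ 1
        · refine ⟨1, Or.inl ⟨rfl, hp0⟩, ?_⟩
          rw [abs_le]
          refine ⟨?_, hle⟩
          rw [hw1]
          nlinarith
        · refine ⟨-1, Or.inr ⟨rfl, hq0⟩, ?_⟩
          push Not at hle
          rw [hw1] at hle
          rw [hw2, abs_le]
          constructor
          · nlinarith
          · nlinarith
      · by_cases hle : e + (-1 - w j) * f j ≤ 1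
        · refine ⟨-1, Or.inr ⟨rfl, hq0⟩, ?_⟩
          rw [abs_le]
          refine ⟨?_, hle⟩
          rw [hw2]
          nlinarith
        · refine ⟨1, Or.inl ⟨rfl, hp0⟩, ?_⟩
          push Not at hle
          rw [hw2] at hle
          rw [hw1, abs_le]
          constructor
          · nlinarith
          · nlinarith
    obtain ⟨t, ht1, ht2⟩ := hsign
    refine ⟨Function.update v j t, fun k => ?_, fun i => ?_⟩
    · by_cases hk : k = j
      · subst hk
        rw [Function.update_self]
        exact ht1
      · rw [Function.update_of_ne hk]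
        exact hv1 k
    · have hsame : ∀ i', ∑ k ∈ s with c k = i', (Function.update v j t k - w k) * f k =
          ∑ k ∈ s with c k = i', (v k - w k) * f k := by
        intro i'
        refine Finset.sum_congr rfl fun k hk => ?_
        have : k ≠ j := by
          rintro rfl
          exact hj (Finset.mem_filter.1 hk).1
        rw [Function.update_of_ne this]
      rw [Finset.filter_insert]
      by_cases hi : c j = i
      · subst hi
        rw [if_pos rfl, Finset.sum_insert (fun h => hj (Finset.mem_filter.1 h).1),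
          Function.update_self, hsame, add_comm]
        exact ht2
      · rw [if_neg hi, hsame]
        exact hv2 i

/-- **Discrete Hobby–Rice theorem.** -/
theorem discrete_hobby_rice {L n : ℕ} (c : Fin L → Fin (n + 1)) (f : Fin L → ℝ)
    (hf : ∀ j, |f j| ≤ 1) :
    ∃ (κ : Fin L → Fin (n + 2)) (ε : Fin (n + 2) → ℝ), Monotone κ ∧
      (∀ k, ε k = 1 ∨ ε k = -1) ∧ ∀ i, |∑ j with c j = i, ε (κ j) * f j| ≤ 1 := by
  classical
  obtain ⟨z, hz1, hz0⟩ := hobby_rice n
    (fun i t => ∑ j : Fin L, if c j = i then f j * clamp (L * t - j.val) else 0) (by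
      intro i
      refine continuous_finsetSum _ fun j _ => ?_
      split_ifs
      · exact continuous_const.mul (continuous_clamp.comp
          ((continuous_const.mul continuous_id).sub continuous_const))
      · exact continuous_const)
  -- overlap of a bead with the positive and the negative intervals
  set P : Fin L → Fin (n + 2) → ℝ := fun j k =>
    clamp (L * (aa z k.val + max (z k) 0) - j.val) - clamp (L * aa z k.val - j.val) with hP
  set Q : Fin L → Fin (n + 2) → ℝ := fun j k =>
    clamp (L * (aa z k.val + max (-z k) 0) - j.val) - clamp (L * aa z k.val - j.val) with hQ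
  have hLn : (0 : ℝ) ≤ L := Nat.cast_nonneg L
  have hP0 : ∀ j k, 0 ≤ P j k := by
    intro j k
    refine sub_nonneg.2 (clamp_mono ?_)
    have : 0 ≤ max (z k) 0 := le_max_right _ _
    nlinarith
  have hQ0 : ∀ j k, 0 ≤ Q j k := by
    intro j k
    refine sub_nonneg.2 (clamp_mono ?_)
    have : 0 ≤ max (-z k) 0 := le_max_right _ _
    nlinarith
  have hPQ : ∀ j k, P j k + Q j k =
      clamp (L * aa z (k.val + 1) - j.val) - clamp (L * aa z k.val - j.val) := by
    intro j k
    rw [aa_succ]
    simp only [hP, hQ]
    rcases le_total 0 (z k) with h | h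
    · rw [max_eq_left h, max_eq_right (by linarith : -z k ≤ 0), abs_of_nonneg h, add_zero]
      ring
    · rw [max_eq_right h, max_eq_left (by linarith : 0 ≤ -z k), abs_of_nonpos h, add_zero]
      ring
  have hPQ1 : ∀ j, ∑ k, P j k + ∑ k, Q j k = 1 := by
    intro j
    rw [← Finset.sum_add_distrib, Finset.sum_congr rfl fun k _ => hPQ j k,
      Fin.sum_univ_eq_sum_range (fun k =>
        clamp (L * aa z (k + 1) - j.val) - clamp (L * aa z k - j.val)) (n + 2),
      Finset.sum_range_sub (fun k => clamp (L * aa z k - j.val)), aa_top, aa_zero, hz1]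
    have h1 : (j.val : ℝ) + 1 ≤ L := by exact_mod_cast j.isLt
    have h2 : (0 : ℝ) ≤ j.val := Nat.cast_nonneg _
    rw [clamp_of_one_le (by linarith), clamp_of_nonpos (by linarith)]
    ring
  -- rounding
  obtain ⟨v, hv1, hv2⟩ := rounding c f (fun j => ∑ k, P j k - ∑ k, Q j k)
    (fun j => ∑ k, P j k) (fun j => ∑ k, Q j k) hf
    (fun j => Finset.sum_nonneg fun k _ => hP0 j k) (fun j => Finset.sum_nonneg fun k _ => hQ0 j k)
    hPQ1 (fun _ => rfl) Finset.univ
  -- the weighted sums vanish
  have hzero : ∀ i, ∑ j with c j = i, (∑ k, P j k - ∑ k, Q j k) * f j = 0 := by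
    intro i
    rw [← hz0 i]
    unfold gg
    have h1 : ∀ k : Fin (n + 2),
        ((∑ j : Fin L, if c j = i then
            f j * clamp (L * (aa z k.val + max (z k) 0) - j.val) else 0) -
          (∑ j : Fin L, if c j = i then
            f j * clamp (L * (aa z k.val + max (-z k) 0) - j.val) else 0)) =
        ∑ j with c j = i, (P j k - Q j k) * f j := by
      intro k
      rw [← Finset.sum_sub_distrib, Finset.sum_filter]
      refine Finset.sum_congr rfl fun j _ => ?_
      split_ifs
      · simp only [hP, hQ]
        ring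
      · exact sub_zero 0
    rw [Finset.sum_congr rfl fun k _ => h1 k, Finset.sum_comm]
    refine Finset.sum_congr rfl fun j _ => ?_
    rw [← Finset.sum_sub_distrib, Finset.sum_mul]
  -- a block for every bead
  have hblock : ∀ j, ∃ k : Fin (n + 2), (v j = if 0 < z k then 1 else -1) ∧
      (j.val : ℝ) < L * aa z (k.val + 1) ∧ L * aa z k.val < j.val + 1 := by
    intro j
    have key : ∀ k, 0 < P j k + Q j k →
        (j.val : ℝ) < L * aa z (k.val + 1) ∧ L * aa z k.val < j.val + 1 := by
      intro k hk
      rw [hPQ] at hk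
      constructor
      · by_contra h
        push Not at h
        have h1 : clamp (L * aa z (k.val + 1) - j.val) = 0 := clamp_of_nonpos (by linarith)
        have h2 : 0 ≤ clamp (L * aa z k.val - j.val) := le_max_left _ _
        linarith
      · by_contra h
        push Not at h
        have h1 : clamp (L * aa z k.val - j.val) = 1 := clamp_of_one_le (by linarith)
        have h2 : clamp (L * aa z (k.val + 1) - j.val) ≤ 1 := max_le zero_le_one (min_le_left _ _)
        linarith
    rcases hv1 j with ⟨h1, h2⟩ | ⟨h1, h2⟩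
    · obtain ⟨k, -, hk⟩ := Finset.exists_lt_of_sum_lt (s := Finset.univ) (f := fun _ => (0 : ℝ))
        (g := fun k => P j k) (by simpa using h2)
      have hzk : 0 < z k := by
        by_contra hcon
        push Not at hcon
        simp only [hP] at hk
        rw [max_eq_right hcon, add_zero, sub_self] at hk
        exact lt_irrefl _ hk
      refine ⟨k, ?_, key k (by have := hQ0 j k; linarith)⟩
      rw [if_pos hzk]
      exact h1
    · obtain ⟨k, -, hk⟩ := Finset.exists_lt_of_sum_lt (s := Finset.univ) (f := fun _ => (0 : ℝ))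
        (g := fun k => Q j k) (by simpa using h2)
      have hzk : ¬ 0 < z k := by
        intro hcon
        simp only [hQ] at hk
        rw [max_eq_right (by linarith : -z k ≤ 0), add_zero, sub_self] at hk
        exact lt_irrefl _ hk
      refine ⟨k, ?_, key k (by have := hP0 j k; linarith)⟩
      rw [if_neg hzk]
      exact h1
  choose κ hκ using hblock
  refine ⟨κ, fun k => if 0 < z k then 1 else -1, ?_, ?_, ?_⟩
  · intro j j' hjj
    by_contra hcon
    push Not at hcon
    have hne : j ≠ j' := by
      rintro rfl
      exact lt_irrefl _ hcon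
    have hlt : j.val < j'.val := lt_of_le_of_ne hjj fun h => hne (Fin.ext h)
    have h1 : (j.val : ℝ) + 1 ≤ j'.val := by exact_mod_cast hlt
    have h2 : aa z ((κ j').val + 1) ≤ aa z (κ j).val := aa_mono z hcon
    have h3 := (hκ j').2.1
    have h4 := (hκ j).2.2
    nlinarith
  · intro k
    by_cases h : 0 < z k
    · exact Or.inl (if_pos h)
    · exact Or.inr (if_neg h)
  · intro i
    have h1 := hv2 i
    have h2 : ∑ j with c j = i, (v j - (∑ k, P j k - ∑ k, Q j k)) * f j =
        ∑ j with c j = i, (if 0 < z (κ j) then 1 else -1) * f j := by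
      have h3 : ∀ j, (v j - (∑ k, P j k - ∑ k, Q j k)) * f j =
          (if 0 < z (κ j) then 1 else -1) * f j - (∑ k, P j k - ∑ k, Q j k) * f j := by
        intro j
        rw [(hκ j).1]
        ring
      rw [Finset.sum_congr rfl fun j _ => h3 j, Finset.sum_sub_distrib, hzero i, sub_zero]
    rw [h2] at h1
    exact h1

end Pool.Agent.FD
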